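import Pool.Agent.H63.DI.MJ

/-!
# MP_64fb07_lc, board `dik_modules`: module CL
-/

set_option autoImplicit false

namespace Pool.Agent.H63.DI

open Pool.Agent.H16.TO Pool.Agent.H8.PL Pool.Agent.H8.DI

theorem pf_cl (hMJ : K_MJ) : K_CL := by
  intro V Q _ U Hh Vv st E lt M S N N' ch hC hO hH h3 j hj x y hx hy hxy hlt hN
  -- the chain
  have hchain : ∀ x : V, lnk 0 j (st x) → ∃ y z w : V, (lt x y ∧ N x y ∧ (st y).k = j ∧
      (st y).c = (st x).c) ∧ (lt y z ∧ N' y z ∧ lnk 3 j (st z) ∧ (st z).c = (st y).c) ∧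
      (E w z ∧ M w z ∧ src 3 (st w) ∧ (st w).c = (st z).c) := by
    intro x hx
    obtain ⟨y, hy, -⟩ := hO.lin j hj x hx
    obtain ⟨z, hz, -⟩ := hO.lio j hj y hy.2.2.1
    obtain ⟨w, hw, -⟩ := hC.mat' 3 (by decide) z hz.2.2.1.1
    exact ⟨y, z, w, hy, hz, hw⟩
  have hY : ∀ x : {x : V // lnk 0 j (st x)}, ∃ y z w : V, (lt x.1 y ∧ N x.1 y ∧ (st y).k = j ∧
      (st y).c = (st x.1).c) ∧ (lt y z ∧ N' y z ∧ lnk 3 j (st z) ∧ (st z).c = (st y).c) ∧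
      (E w z ∧ M w z ∧ src 3 (st w) ∧ (st w).c = (st z).c) := fun x => hchain x.1 x.2
  choose Y Z W h1 h2 h4 using hY
  have hW : ∀ x, lnk 0 j (st (W x)) := by
    intro x
    obtain ⟨s1, s2, s3, s4, s5⟩ := hC.same _ _ (h4 x).1
    obtain ⟨l1, l2, l3⟩ := (h2 x).2.2.1
    exact ⟨(h4 x).2.2.1.1, fun h => by rw [s2]; exact l2 h, fun h => by rw [s4]; exact l3 h⟩
  let g : {x : V // lnk 0 j (st x)} → {x : V // lnk 0 j (st x)} := fun x => ⟨W x, hW x⟩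
  have hg : Function.Injective g := by
    intro x1 x2 h
    have hw : W x1 = W x2 := congrArg Subtype.val h
    have hz : Z x1 = Z x2 := by
      refine (hC.mat 3 (by decide) (W x1) (src3 (h4 x1).2.2.1.1)).unique
        ⟨(h4 x1).1, (h4 x1).2.1, (h2 x1).2.2.1.1, (h4 x1).2.2.2.symm⟩ ?_
      rw [hw]
      exact ⟨(h4 x2).1, (h4 x2).2.1, (h2 x2).2.2.1.1, (h4 x2).2.2.2.symm⟩
    have hy : Y x1 = Y x2 := by
      refine (hO.lio' j hj (Z x1) (h2 x1).2.2.1).unique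
        ⟨(h2 x1).1, (h2 x1).2.1, (h1 x1).2.2.1, (h2 x1).2.2.2.symm⟩ ?_
      rw [hz]
      exact ⟨(h2 x2).1, (h2 x2).2.1, (h1 x2).2.2.1, (h2 x2).2.2.2.symm⟩
    have hx : x1.1 = x2.1 := by
      refine (hO.lin' j hj (Y x1) (h1 x1).2.2.1).unique
        ⟨(h1 x1).1, (h1 x1).2.1, x1.2, (h1 x1).2.2.2.symm⟩ ?_
      rw [hy]
      exact ⟨(h1 x2).1, (h1 x2).2.1, x2.2, (h1 x2).2.2.2.symm⟩
    exact Subtype.ext hx
  have hle1 : ∀ x, ch x.1 ≤ ch (Y x) := fun x => hH.mono _ _ (h1 x).1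
  have hle2 : ∀ x, ch (Y x) ≤ ch (W x) := fun x => by
    rw [h3 _ _ (h4 x).1 (h4 x).2.2.1.1 (h2 x).2.2.1.1]
    exact hH.mono _ _ (h2 x).1
  have hmj := hMJ _ g (fun x => ch x.1) hg (fun x => (hle1 x).trans (hle2 x)) ⟨x, hx⟩
  have hyY : y = Y ⟨x, hx⟩ := (hO.lin j hj x hx).unique ⟨hlt, hN, hy, hxy.symm⟩ (h1 ⟨x, hx⟩)
  have e1 := hle1 ⟨x, hx⟩
  have e2 := hle2 ⟨x, hx⟩
  have e3 : ch (W ⟨x, hx⟩) = ch x := hmj
  rw [← hyY] at e1 e2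
  simp only at e1
  omega

end Pool.Agent.H63.DI
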