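import Pool.Agent.H8.DI.Targets

/-!
# MP_64fb07_lc, board `dik_modules`: modules LB, CN
-/

set_option autoImplicit false

namespace Pool.Agent.H63.DI

open Pool.Agent.H16.TO Pool.Agent.H8.PL Pool.Agent.H8.DI

section
variable {V Q : Type} {U : Bool → Bool → Bool → Bool → Q → Prop} {st : V → El Q}
  {E M : V → V → Prop}

lemma al_congr (hC : CellAx U st E M) {x y : V} (h : E x y) : al st E x = al st E y := by
  unfold al
  congr 1
  ext z
  constructor
  · rintro ⟨h1, h2⟩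
    exact ⟨hC.eqv.trans (hC.eqv.symm h) h1, h2⟩
  · rintro ⟨h1, h2⟩
    exact ⟨hC.eqv.trans h h1, h2⟩

lemma be_congr (hC : CellAx U st E M) {x y : V} (h : E x y) : be st E x = be st E y := by
  unfold be
  congr 1
  ext z
  constructor
  · rintro ⟨h1, h2⟩
    exact ⟨hC.eqv.trans (hC.eqv.symm h) h1, h2⟩
  · rintro ⟨h1, h2⟩
    exact ⟨hC.eqv.trans h h1, h2⟩

/-- the head of a cell -/
lemma exists_head (hC : CellAx U st E M) (x : V) : ∃ h, E x h ∧ head (st h) := by
  obtain ⟨h, hh, -⟩ := hC.one x false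
  exact ⟨h, hh.1, hh.2.1, hh.2.2⟩

lemma head_unique (hC : CellAx U st E M) {h h' : V} (he : E h h') (h1 : head (st h))
    (h2 : head (st h')) : h = h' :=
  (hC.one h false).unique ⟨hC.eqv.refl h, h1.1, h1.2⟩ ⟨he, h2.1, h2.2⟩

/-- one of the relations `ρ`, `υ` -/
def rel (st : V → El Q) (E F : V → V → Prop) (j : Fin 4) (c d : {x : V // head (st x)}) : Prop :=
  ∃ x y, E c.1 x ∧ (st x).k = 0 ∧ F x y ∧ (st y).k = j ∧ E y d.1

end

theorem pf_cn (hCB : K_CB) (hLB : K_LB) : K_CN := by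
  intro V Q _ U Hh Vv st E F M N hC hL
  have hE := hC.eqv
  have hF := hL.feq
  have cb := hCB V Q U st E M hC
  have lb := hLB V Q U Hh Vv st E F M N hC hL
  -- uniqueness of the neighbours
  have r4 : ∀ j, ∀ c d d', rel st E F j c d → rel st E F j c d' → d = d' := by
    rintro j c d d' ⟨x, y, hx1, hx2, hxy, hy1, hy2⟩ ⟨x', y', hx1', hx2', hxy', hy1', hy2'⟩
    have e1 : E x x' := hE.trans (hE.symm hx1) hx1'
    have e2 : F x x' := (hL.blk x x' (by rw [hx2, hx2'])).1 e1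
    have e3 : F y y' := hF.trans (hF.trans (hF.symm hxy) e2) hxy'
    have e4 : E y y' := (hL.blk y y' (by rw [hy1, hy1'])).2 e3
    exact Subtype.ext (head_unique hC (hE.trans (hE.trans (hE.symm hy2) e4) hy2') d.2 d'.2)
  have r2 : ∀ j, j = 1 ∨ j = 2 → ∀ c : {x : V // head (st x)}, lnk 0 j (st c.1) →
      ∃ d, rel st E F j c d := by
    intro j hj c hc
    obtain ⟨y, hy, -⟩ := hL.lin j hj c.1 hc
    obtain ⟨d, hd1, hd2⟩ := exists_head hC y
    exact ⟨⟨d, hd2⟩, c.1, y, hE.refl _, c.2.1, hy.1, hy.2.2.1, hd1⟩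
  have r3 : ∀ j, ∀ d : {x : V // head (st x)}, (∃ y, E d.1 y ∧ (st y).k = j) →
      ∃ c, rel st E F j c d := by
    rintro j d ⟨y, hy1, hy2⟩
    obtain ⟨x, hx1, hx2⟩ := hL.own y
    obtain ⟨c, hc1, hc2⟩ := exists_head hC x
    exact ⟨⟨c, hc2⟩, x, y, hE.symm hc1, hx2, hx1, hy2, hE.symm hy1⟩
  refine ⟨{x : V // head (st x)}, inferInstance, fun c => al st E c.1, fun c => be st E c.1,
    fun c => (st c.1).lx, fun c => (st c.1).ly, fun c => (st c.1).q, rel st E F 1, rel st E F 2,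
    ?_, ?_⟩
  · constructor
    · exact fun c => ⟨(cb c.1).1, (cb c.1).2.1⟩
    · intro c
      have h1 : decide (al st E c.1 = 1) = (st c.1).fx := by
        rw [Bool.eq_iff_iff, decide_eq_true_iff]
        exact (cb c.1).2.2.1.symm
      have h2 : decide (be st E c.1 = 1) = (st c.1).fy := by
        rw [Bool.eq_iff_iff, decide_eq_true_iff]
        exact (cb c.1).2.2.2.1.symm
      rw [h1, h2]
      exact hC.un c.1
    · obtain ⟨x, ⟨hx1, hx2, hx3⟩, hx4⟩ := hC.cor
      refine ⟨⟨x, hx1⟩, ⟨(cb x).2.2.1.1 hx2, (cb x).2.2.2.1.1 hx3⟩, ?_⟩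
      rintro ⟨y, hy⟩ ⟨h1, h2⟩
      exact Subtype.ext (hx4 y ⟨hy, (cb y).2.2.1.2 h1, (cb y).2.2.2.1.2 h2⟩)
    · rintro c d ⟨x, y, hx1, hx2, hxy, hy1, hy2⟩
      obtain ⟨g1, g2, g3, g4, g5⟩ := (lb x y hx2 hxy).1 hy1
      obtain ⟨s1, s2, s3, s4, s5⟩ := hC.same _ _ hx1
      obtain ⟨t1, t2, t3, t4, t5⟩ := hC.same _ _ hy2
      rw [al_congr hC hx1, be_congr hC hx1, ← al_congr hC hy2, ← be_congr hC hy2, s2, s4, s5,
        ← t4, ← t5]
      exact ⟨g1, g2, g3, g4, g5⟩
    · intro c hc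
      exact r2 1 (Or.inl rfl) c ⟨c.2.1, fun _ => hc, fun h => absurd h (by decide)⟩
    · intro d hd
      have h1 : (st d.1).fx = false := by
        rw [← Bool.not_eq_true]
        intro h
        have := (cb d.1).2.2.1.1 h
        omega
      have h2 := ((cb d.1).2.2.2.2.1 h1).1
      have h3 : {y | E d.1 y ∧ (st y).k = 1 ∧ (st y).c = false}.Nonempty := by
        rw [← Set.ncard_pos (Set.toFinite _)]
        omega
      obtain ⟨y, hy1, hy2, -⟩ := h3
      exact r3 1 d ⟨y, hy1, hy2⟩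
    · exact r4 1
    · rintro c d ⟨x, y, hx1, hx2, hxy, hy1, hy2⟩
      obtain ⟨g1, g2, g3, g4, g5⟩ := (lb x y hx2 hxy).2 hy1
      obtain ⟨s1, s2, s3, s4, s5⟩ := hC.same _ _ hx1
      obtain ⟨t1, t2, t3, t4, t5⟩ := hC.same _ _ hy2
      rw [al_congr hC hx1, be_congr hC hx1, ← al_congr hC hy2, ← be_congr hC hy2, s2, s4, s5,
        ← t2, ← t5]
      exact ⟨g1, g2, g3, g4, g5⟩
    · intro c hc
      exact r2 2 (Or.inr rfl) c ⟨c.2.1, fun h => absurd h (by decide), fun _ => hc⟩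
    · intro d hd
      have h1 : (st d.1).fy = false := by
        rw [← Bool.not_eq_true]
        intro h
        have := (cb d.1).2.2.2.1.1 h
        omega
      have h2 := ((cb d.1).2.2.2.2.2.1 h1).2
      have h3 : {y | E d.1 y ∧ (st y).k = 2 ∧ (st y).c = true}.Nonempty := by
        rw [← Set.ncard_pos (Set.toFinite _)]
        omega
      obtain ⟨y, hy1, hy2, -⟩ := h3
      exact r3 2 d ⟨y, hy1, hy2⟩
    · exact r4 2
  · have hfin : Fintype {x : V // head (st x)} := Fintype.ofFinite _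
    choose hd hd1 hd2 using exists_head hC
    let e : V ≃ Σ c : {x : V // head (st x)}, {y : V // E c.1 y} :=
      { toFun := fun y => ⟨⟨hd y, hd2 y⟩, ⟨y, hE.symm (hd1 y)⟩⟩
        invFun := fun p => p.2.1
        left_inv := fun y => rfl
        right_inv := by
          rintro ⟨⟨c, hc⟩, ⟨y, hy⟩⟩
          have h1 : hd y = c := head_unique hC (hE.trans (hE.symm (hd1 y)) (hE.symm hy)) (hd2 y) hc
          subst h1
          rfl }
    rw [Nat.card_congr e, Nat.card_sigma, finsum_eq_sum_of_fintype]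
    refine Finset.sum_congr rfl fun c _ => ?_
    rw [← (cb c.1).2.2.2.2.2.2]
    rfl

end Pool.Agent.H63.DI
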