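import Pool.Agent.H63.DI.MJ

/-!
# MP_64fb07_lc, board `dik_modules`: module CT
-/

set_option autoImplicit false

namespace Pool.Agent.H63.DI

open Pool.Agent.H16.TO Pool.Agent.H8.PL Pool.Agent.H8.DI

theorem pf_ct (hMJ : K_MJ) : K_CT := by
  intro V Q _ U Hh Vv st E lt M S N N' ch hC hO hH x y hxy hx hy
  have hE := hC.eqv
  have hT : ∀ h : {h : V // head (st h)}, ∃ t h' : V, (E h.1 t ∧ (st t).k = 3) ∧
      (ch h' = ch t ∧ head (st h')) := by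
    rintro ⟨h, hh⟩
    obtain ⟨y, hy, -⟩ := hC.mat 3 (by decide) h (src3 hh.1)
    obtain ⟨t, ht1, ht2, ht3⟩ := hH.ex y 3 (Or.inr rfl)
    have hyt : E y t := (hH.blk y t (by rw [hy.2.2.1, ht2])).2 ht1.symm
    obtain ⟨h', hh1, hh2, hh3⟩ := hH.ex t 0 (Or.inl rfl)
    exact ⟨t, h', ⟨hE.trans hy.1 hyt, ht2⟩, hh1, hh2, hh3⟩
  choose T G h1 h2 using hT
  let g : {h : V // head (st h)} → {h : V // head (st h)} := fun h => ⟨G h, (h2 h).2⟩
  have hg : Function.Injective g := by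
    intro a b hab
    have e1 : G a = G b := congrArg Subtype.val hab
    have e2 : ch (T a) = ch (T b) := by rw [← (h2 a).1, ← (h2 b).1, e1]
    have e3 : E (T a) (T b) := (hH.blk _ _ (by rw [(h1 a).2, (h1 b).2])).2 e2
    have e4 : E a.1 b.1 := hE.trans (hE.trans (h1 a).1 e3) (hE.symm (h1 b).1)
    exact Subtype.ext (hO.uni a.1 b.1 e4 (by rw [a.2.1, b.2.1]) a.2.2 b.2.2)
  have hle : ∀ h, ch h.1 ≤ ch (G h) := fun h => by
    rw [(h2 h).1]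
    exact hH.mono _ _ (hO.up _ _ (h1 h).1 h.2 (h1 h).2)
  obtain ⟨h, hh, -⟩ := hC.one x false
  have hhead : head (st h) := ⟨hh.2.1, hh.2.2⟩
  have hmj : ch (G ⟨h, hhead⟩) = ch h := hMJ _ g (fun h => ch h.1) hg hle ⟨h, hhead⟩
  have e1 : ch x = ch h := (hH.blk x h (by rw [hx, hh.2.1])).1 hh.1
  have e2 : ch y = ch (T ⟨h, hhead⟩) := (hH.blk y _ (by rw [hy, (h1 ⟨h, hhead⟩).2])).1
    (hE.trans (hE.trans (hE.symm hxy) hh.1) (h1 ⟨h, hhead⟩).1)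
  rw [e1, e2, ← (h2 ⟨h, hhead⟩).1, hmj]

end Pool.Agent.H63.DI
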