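import Pool.Agent.H8.DI.Targets

/-!
# MP_64fb07_lc, board `dik_modules`: module HD
-/

set_option autoImplicit false

namespace Pool.Agent.H63.DI

open Pool.Agent.H69.Sp Pool.Agent.H69.Mt Pool.Agent.H16.TO Pool.Agent.H8.PL Pool.Agent.H8.DI

lemma specK_congr {l : ℕ} {κ κ' : ℕ → Kd} (h : ∀ j < l, κ j = κ' j) (φ : C2) :
    specK l κ φ = specK l κ' φ := by
  ext n
  unfold specK
  constructor
  · rintro ⟨h1, P, R, h2, h3⟩
    exact ⟨h1, P, R, fun j hj => by rw [← h j hj]; exact h2 j hj, h3⟩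
  · rintro ⟨h1, P, R, h2, h3⟩
    exact ⟨h1, P, R, fun j hj => by rw [h j hj]; exact h2 j hj, h3⟩

/-- reduction to two relations with given kinds -/
lemma two_of (hRN : K_RN) (hRF : K_RF) {l : ℕ} (hl : 2 ≤ l) (τ : ℕ → Kd) {a b : ℕ} (ha : a < 2)
    (hb : b < 2) (hab : a ≠ b) (κ : ℕ → Kd) (h0 : κ 0 = if τ a = Kd.tree then Kd.ord else τ a)
    (h1 : κ 1 = if τ b = Kd.tree then Kd.ord else τ b) (φ : C2) :
    ∃ φ' : C2, specK l τ φ' = specK 2 κ φ := by
  let g : ℕ → ℕ := fun j => if j = 0 then a else if j = 1 then b else l + j - 2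
  have hg : Function.Injective g := by
    intro i j hij
    simp only [g] at hij
    split_ifs at hij <;> omega
  have hlt : ∀ j, g j < l ↔ j < 2 := by
    intro j
    simp only [g]
    split_ifs <;> omega
  obtain ⟨φ1, hφ1⟩ := hRN g hg 2 l hlt φ
  obtain ⟨φ2, hφ2⟩ := hRF l τ φ1
  refine ⟨φ2, ?_⟩
  rw [hφ2, hφ1]
  refine specK_congr (fun j hj => ?_) φ
  have hj' : j = 0 ∨ j = 1 := by omega
  rcases hj' with rfl | rfl
  · rw [h0]
    simp [g]
  · rw [h1]
    simp [g]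

theorem pf_hd (hRN : K_RN) (hRF : K_RF) (hXE : K_XE) (hXO : K_XO) (hX2 : K_X2) : K_HD := by
  intro l τ hl S hS
  have hkind : ∀ j, (if τ j = Kd.tree then Kd.ord else τ j) = Kd.ord ∨
      (if τ j = Kd.tree then Kd.ord else τ j) = Kd.eqv := by
    intro j
    cases τ j <;> simp
  rcases hkind 0 with h0 | h0 <;> rcases hkind 1 with h1 | h1
  · obtain ⟨φ, r, hr, h⟩ := hX2 S hS
    obtain ⟨φ', hφ'⟩ := two_of hRN hRF hl τ (a := 0) (b := 1) (by omega) (by omega) (by omega)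
      (fun _ => Kd.ord) h0.symm h1.symm φ
    exact ⟨φ', r, hr, Or.inl fun n hn => by rw [hφ']; exact h n hn⟩
  · obtain ⟨φ, r, hr, h⟩ := hXO S hS
    obtain ⟨φ', hφ'⟩ := two_of hRN hRF hl τ (a := 0) (b := 1) (by omega) (by omega) (by omega)
      (fun j => if j = 0 then Kd.ord else Kd.eqv) h0.symm h1.symm φ
    exact ⟨φ', r, hr, Or.inr fun n hn => by rw [hφ']; exact h n hn⟩
  · obtain ⟨φ, r, hr, h⟩ := hXO S hS
    obtain ⟨φ', hφ'⟩ := two_of hRN hRF hl τ (a := 1) (b := 0) (by omega) (by omega) (by omega)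
      (fun j => if j = 0 then Kd.ord else Kd.eqv) h1.symm h0.symm φ
    exact ⟨φ', r, hr, Or.inr fun n hn => by rw [hφ']; exact h n hn⟩
  · obtain ⟨φ, r, hr, h⟩ := hXE S hS
    obtain ⟨φ', hφ'⟩ := two_of hRN hRF hl τ (a := 0) (b := 1) (by omega) (by omega) (by omega)
      (fun _ => Kd.eqv) h0.symm h1.symm φ
    exact ⟨φ', r, hr, Or.inr fun n hn => by rw [hφ']; exact h n hn⟩

end Pool.Agent.H63.DI
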