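import Pool.Agent.H8.DI.Targets

/-!
# MP_64fb07_lc, board `dik_modules`: module XO
-/

set_option autoImplicit false

namespace Pool.Agent.H63.DI

open Pool.Agent.H69.Sp Pool.Agent.H69.Mt Pool.Agent.H16.TO Pool.Agent.H8.PL Pool.Agent.H8.DI

/-- transport of a model along an equivalence -/
lemma sat_transport (hEQ : Pool.Agent.H8.PU.Y_EQ) {A B : Type} (e : A ≃ B) {P : ℕ → A → Prop}
    {R : ℕ → A → A → Prop} {φ : C2} (h : ∀ s, φ.Sat P R s) :
    ∀ s, φ.Sat (fun i b => P i (e.symm b)) (fun i b b' => R i (e.symm b) (e.symm b')) s := by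
  intro s
  have h1 := (hEQ A B e P R (fun i b => P i (e.symm b))
    (fun i b b' => R i (e.symm b) (e.symm b')) φ (fun i _ a => by simp)
    (fun i _ a b => by simp) (fun w => e.symm (s w))).1 (h _)
  simpa using h1

lemma isSTO_transport {A B : Type} (e : A ≃ B) {r : A → A → Prop} (h : IsStrictTotalOrder A r) :
    IsStrictTotalOrder B (fun b b' => r (e.symm b) (e.symm b')) where
  irrefl _ := h.irrefl _
  trans _ _ _ hab hbc := h.trans _ _ _ hab hbc
  trichotomous _ _ h1 h2 := e.symm.injective (h.trichotomous _ _ h1 h2)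

lemma equivalence_transport {A B : Type} (e : A ≃ B) {r : A → A → Prop} (h : Equivalence r) :
    Equivalence (fun b b' => r (e.symm b) (e.symm b')) :=
  ⟨fun _ => h.refl _, fun h1 => h.symm h1, fun h1 h2 => h.trans h1 h2⟩

lemma eq_of_pol (hPO : K_PO) {m n r : ℕ} (hr : 0 < r) (h : pol (m ^ r) = pol (n ^ r)) : m = n :=
  Nat.pow_left_injective hr.ne' (hPO.2.2.2 _ _ h)

theorem pf_xo (hSQ : Z_SQ) (hDO : K_DO) (hOL : K_OL) (hST : K_ST) (hMC : K_MC) (hMO : K_MO)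
    (hMN : K_MN) (hPO : K_PO) (hEQ : Pool.Agent.H8.PU.Y_EQ) : K_XO := by
  intro S hS
  obtain ⟨r, Q, U, Hh, Vv, hr, hQ, hsq⟩ := hSQ S hS
  obtain ⟨φ, hφ⟩ := hDO Q U Hh Vv
  refine ⟨φ, r, hr, fun n hn => ?_⟩
  have hN : 0 < n ^ r := Nat.pow_pos hn
  have hpol : 0 < pol (n ^ r) := lt_of_lt_of_le hN (hPO.2.2.1 _)
  constructor
  · intro hnS
    obtain ⟨t, ht⟩ := (hsq _ _ hN hN).2 ⟨n, hnS, rfl, rfl⟩
    have h1 := hMC Q U Hh Vv _ _ t hN hN ht
    have h2 := hMO Q U Hh Vv _ _ t hN hN ht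
    obtain ⟨hfin, hcard⟩ := hMN (n ^ r) (n ^ r)
    rw [hPO.2.1] at hcard
    have hne : Nonempty (Mo (n ^ r) (n ^ r)) := by
      rw [← Finite.card_pos_iff, hcard]
      exact hpol
    obtain ⟨P, R, hR0, hR1, hsat⟩ := (hφ (Mo (n ^ r) (n ^ r)) lM eM h2.tot h1.eqv).2
      ⟨_, _, _, _, _, h1, h2⟩
    let e : Mo (n ^ r) (n ^ r) ≃ Fin (pol (n ^ r)) := Finite.equivFinOfCardEq hcard
    refine ⟨hpol, fun i b => P i (e.symm b), fun i b b' => R i (e.symm b) (e.symm b'),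
      fun j hj => ?_, sat_transport hEQ e hsat⟩
    have hj' : j = 0 ∨ j = 1 := by omega
    rcases hj' with rfl | rfl
    · change IsStrictTotalOrder _ (fun b b' => R 0 (e.symm b) (e.symm b'))
      rw [hR0]
      exact isSTO_transport e h2.tot
    · change Equivalence (fun b b' => R 1 (e.symm b) (e.symm b'))
      rw [hR1]
      exact equivalence_transport e h1.eqv
  · rintro ⟨-, P, R, hK, hsat⟩
    have k0 : IsStrictTotalOrder _ (R 0) := hK 0 (by omega)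
    have k1 : Equivalence (R 1) := hK 1 (by omega)
    have hne : Nonempty (Fin (pol (n ^ r))) := ⟨⟨0, hpol⟩⟩
    obtain ⟨st, M, S', N, N', h1, h2⟩ := (hφ (Fin (pol (n ^ r))) (R 0) (R 1) k0 k1).1
      ⟨P, R, rfl, rfl, hsat⟩
    obtain ⟨F, N'', h3⟩ := hOL _ Q U Hh Vv st (R 1) (R 0) M S' N N' h1 h2
    obtain ⟨W, H, hW, hH, ht, hcard⟩ := hST _ Q U Hh Vv st (R 1) F M N'' h1 h3
    obtain ⟨m, hm, rfl, rfl⟩ := (hsq W H hW hH).1 ht
    rw [Nat.card_eq_fintype_card, Fintype.card_fin, hPO.2.1] at hcard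
    rw [eq_of_pol hPO hr hcard]
    exact hm

end Pool.Agent.H63.DI
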