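import Pool.Agent.H8.DI.Targets

/-!
# MP_64fb07_lc, board `dik_modules`: modules MJ, CL, CT
-/

set_option autoImplicit false

namespace Pool.Agent.H63.DI

open Pool.Agent.H16.TO Pool.Agent.H8.PL Pool.Agent.H8.DI

theorem pf_mj : K_MJ := by
  intro X _ g f hg hf x
  have hbij : Function.Bijective g := Finite.injective_iff_bijective.1 hg
  have := Fintype.ofFinite X
  have hsum : ∑ x, f (g x) = ∑ x, f x := Function.Bijective.sum_comp hbij f
  have h2 := (Finset.sum_eq_sum_iff_of_le (s := Finset.univ) (f := f) (g := fun x => f (g x))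
    fun i _ => hf i).1 hsum.symm
  exact (h2 x (Finset.mem_univ x)).symm

lemma src3 {Q : Type} {s : El Q} (h : s.k = 0) : src 3 s :=
  ⟨h, fun h => absurd h (by decide), fun h => absurd h (by decide)⟩

end Pool.Agent.H63.DI
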